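import Pool.Agent.H28.GN.T1
import Pool.Agent.H67.LF.PIR

/-!
# Theorem G, row RSP: the inequality for partially resampled words
-/

set_option autoImplicit false
set_option linter.unusedSectionVars false

open MeasureTheory ProbabilityTheory Filter Topology Finset
open scoped Nat ENNReal

namespace Pool.Agent.H2.GN

open Pool.Agent.H24.T2 (Pset)
open Pool.Agent.H67.AG (avgP ul Inv Rt Av SA kap JJ TT InvZ nxt triv tow XN PN TN XX PX TX prX Fac)
open Pool.Agent.H28.LF (Wd La Cd dm ds)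
open Pool.Agent.H28.GN
open Pool.Agent.H67.LF (avg_mono avg_add avg_mul avg_sum avg_abs ul_sum int_inv int_bdd)

section

variable {X : Type} [MeasurableSpace X] [StandardBorelSpace X] {μ : Measure X}
  [IsProbabilityMeasure μ] {T : X ≃ᵐ X} {q R : ℕ} {a : X → Fin q}

theorem wt_meas (Z : SA X) (b : Fin q) : Measurable (wtG μ a Z b) :=
  (stronglyMeasurable_condExp.mono Z.2).measurable

theorem wt_ae (am : Measurable a) (Z : SA X) :
    ∀ᵐ x ∂μ, (∀ b, 0 ≤ wtG μ a Z b x) ∧ ∑ b, wtG μ a Z b x = 1 := by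
  have hint : ∀ b : Fin q, Integrable ((a ⁻¹' {b}).indicator (fun _ => (1 : ℝ))) μ :=
    fun b => (integrable_const 1).indicator (am (measurableSet_singleton b))
  have h1 : ∀ b : Fin q, ∀ᵐ x ∂μ, 0 ≤ wtG μ a Z b x := by
    intro b
    have h := condExp_nonneg (μ := μ) (m := Z.1)
      (f := (a ⁻¹' {b}).indicator (fun _ => (1 : ℝ)))
      (Filter.Eventually.of_forall fun x => Set.indicator_nonneg (fun _ _ => zero_le_one) x)
    exact h
  have h2 : ∀ᵐ x ∂μ, ∑ b, wtG μ a Z b x = 1 := by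
    have h := condExp_finsetSum (μ := μ) (s := (univ : Finset (Fin q)))
      (f := fun b => (a ⁻¹' {b}).indicator (fun _ => (1 : ℝ))) (fun b _ => hint b) Z.1
    have e1 : ∑ b : Fin q, (a ⁻¹' {b}).indicator (fun _ => (1 : ℝ)) = fun _ => (1 : ℝ) := by
      funext x
      rw [Finset.sum_apply, Finset.sum_eq_single (a x)]
      · rw [Set.indicator_of_mem]
        exact Set.mem_singleton _
      · intro b _ hb
        rw [Set.indicator_of_notMem]
        intro h
        exact hb (Set.mem_singleton_iff.1 h).symm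
      · intro h
        exact absurd (Finset.mem_univ _) h
    rw [e1, condExp_const Z.2] at h
    filter_upwards [h] with x hx
    rw [Finset.sum_apply] at hx
    exact hx.symm
  filter_upwards [ae_all_iff.2 h1, h2] with x hx1 hx2 using ⟨hx1, hx2⟩

theorem vv_meas (Z : SA X) : Measurable (vvG μ a Z) := by
  unfold vvG
  refine measurable_const.max (measurable_const.min ?_)
  exact measurable_const.sub (Finset.measurable_sum _ fun b _ => (wt_meas Z b).pow_const 2)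

theorem vv_nonneg (Z : SA X) (x : X) : 0 ≤ vvG μ a Z x := le_max_left _ _

theorem vv_le (Z : SA X) (x : X) : vvG μ a Z x ≤ 1 := max_le zero_le_one (min_le_left _ _)

theorem vv_eq (Z : SA X) (x : X) (h : (∀ b, 0 ≤ wtG μ a Z b x) ∧ ∑ b, wtG μ a Z b x = 1) :
    vvG μ a Z x = 1 - ∑ b, wtG μ a Z b x ^ 2 := by
  have h1 : ∀ b, wtG μ a Z b x ≤ 1 := by
    intro b
    rw [← h.2]
    exact Finset.single_le_sum (f := fun b => wtG μ a Z b x) (fun b _ => h.1 b) (Finset.mem_univ b)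
  have h2 : ∑ b, wtG μ a Z b x ^ 2 ≤ 1 := by
    rw [← h.2]
    refine Finset.sum_le_sum fun b _ => ?_
    have := h.1 b
    have := h1 b
    nlinarith
  have h3 : 0 ≤ ∑ b, wtG μ a Z b x ^ 2 := Finset.sum_nonneg fun b _ => sq_nonneg _
  unfold vvG
  rw [min_eq_right (by linarith), max_eq_right (by linarith)]

open Classical in
/-- the inequality for one prime -/
theorem one_prime (hC : T_CPG) (hM : T_MRG) (mp : MeasurePreserving T μ μ) (am : Measurable a)
    {ι : Type} [Fintype ι] [DecidableEq ι] (pos : ι → Fin R) (hpos : Function.Injective pos)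
    (I : Finset ι) (B : Set (ι → Fin q)) (hB : CodeG I B)
    (Z : SA X) (th : ℝ) (h0 : 0 ≤ th) (h1 : th ≤ 1) (p : ℕ) :
    (I.card : ℝ) * ∫ x, th * vvG μ a Z x ∂μ ≤
      2 * (∑ v : Fin R → Fin q, if v ∈ Lft pos B then
        ∫ x, ∏ i, wtG μ a Z (v i) (T^[p * ((i : ℕ) + 1)] x) ∂μ else 0) +
      ∑ i ∈ I, ∑ j ∈ univ.erase i,
        ∫ x in Set.univ, (th * vvG μ a Z x) *
          (th * vvG μ a Z (T^[p * dif (pos i : ℕ) (pos j : ℕ)] x)) ∂μ := by
  obtain ⟨g, hg⟩ : ∃ g : X → ℝ, g = fun x => th * vvG μ a Z x := ⟨_, rfl⟩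
  have hgm : Measurable g := by
    rw [hg]
    exact (vv_meas Z).const_mul th
  have hg0 : ∀ x, 0 ≤ g x := fun x => by
    rw [hg]
    exact mul_nonneg h0 (vv_nonneg Z x)
  have hg1 : ∀ x, g x ≤ 1 := fun x => by
    rw [hg]
    exact mul_le_one₀ h1 (vv_nonneg Z x) (vv_le Z x)
  set G : ι → X → ℝ := fun i x => g (T^[p * ((pos i : ℕ) + 1)] x) with hG
  have hGm : ∀ i, Measurable (G i) := fun i => hgm.comp (T.measurable.iterate _)
  have hGi : ∀ i, Integrable (G i) μ := fun i =>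
    int_bdd (hGm i) 1 fun ω => abs_le.2 ⟨by linarith [hg0 (T^[p * ((pos i : ℕ) + 1)] ω)], hg1 _⟩
  have hGGi : ∀ i j, Integrable (fun ω => G i ω * G j ω) μ := fun i j =>
    int_bdd ((hGm i).mul (hGm j)) 1 fun ω => abs_le.2
      ⟨le_trans (by norm_num) (mul_nonneg (hg0 (T^[p * ((pos i : ℕ) + 1)] ω))
        (hg0 (T^[p * ((pos j : ℕ) + 1)] ω))), mul_le_one₀ (hg1 _) (hg0 _) (hg1 _)⟩
  have hae : ∀ᵐ x ∂μ, ∀ i : Fin R, (∀ b, 0 ≤ wtG μ a Z b (T^[p * ((i : ℕ) + 1)] x)) ∧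
      ∑ b, wtG μ a Z b (T^[p * ((i : ℕ) + 1)] x) = 1 := by
    rw [ae_all_iff]
    intro i
    exact (mp.iterate (p * ((i : ℕ) + 1))).quasiMeasurePreserving.ae (wt_ae am Z)
  set Pr : (Fin R → Fin q) → X → ℝ :=
    fun v x => ∏ i, wtG μ a Z (v i) (T^[p * ((i : ℕ) + 1)] x) with hPr
  have hPm : ∀ v, Measurable (Pr v) := fun v =>
    Finset.measurable_prod _ fun i _ => (wt_meas Z (v i)).comp (T.measurable.iterate _)
  have hPi : ∀ v, Integrable (Pr v) μ := by
    intro v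
    refine Integrable.of_bound (hPm v).aestronglyMeasurable 1 ?_
    filter_upwards [hae] with x hx
    rw [Real.norm_eq_abs, abs_of_nonneg (Finset.prod_nonneg fun i _ => (hx i).1 (v i))]
    refine Finset.prod_le_one (fun i _ => (hx i).1 (v i)) fun i _ => ?_
    rw [← (hx i).2]
    exact Finset.single_le_sum (f := fun b => wtG μ a Z b (T^[p * ((i : ℕ) + 1)] x))
      (fun b _ => (hx i).1 b) (Finset.mem_univ _)
  have hpt : ∀ᵐ x ∂μ, ∑ i ∈ I, G i x - ∑ i ∈ I, ∑ j ∈ univ.erase i, G i x * G j x ≤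
      2 * ∑ v : Fin R → Fin q, if v ∈ Lft pos B then Pr v x else 0 := by
    filter_upwards [hae] with x hx
    have h := hC q ι I (fun i b => wtG μ a Z b (T^[p * ((pos i : ℕ) + 1)] x)) th B
      hB h0 h1 (fun i b => (hx (pos i)).1 b) (fun i => (hx (pos i)).2)
    have e : ∀ i : ι, th * (1 - ∑ b, wtG μ a Z b (T^[p * ((pos i : ℕ) + 1)] x) ^ 2) = G i x := by
      intro i
      rw [← vv_eq Z _ (hx (pos i))]
      simp only [hG, hg]
    simp only [e] at h
    have h' := hM q R ι pos (fun i b => wtG μ a Z b (T^[p * ((i : ℕ) + 1)] x)) B hpos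
      (fun i => (hx i).2)
    refine h.trans (le_of_eq ?_)
    rw [← h']
  have i1 : Integrable (fun x => ∑ i ∈ I, G i x) μ := integrable_finsetSum _ fun i _ => hGi i
  have i2 : Integrable (fun x => ∑ i ∈ I, ∑ j ∈ univ.erase i, G i x * G j x) μ :=
    integrable_finsetSum _ fun i _ => integrable_finsetSum _ fun j _ => hGGi i j
  have i3' : ∀ v, Integrable (fun x => if v ∈ Lft pos B then Pr v x else 0) μ := by
    intro v
    by_cases hv : v ∈ Lft pos B
    · simp only [hv, if_true]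
      exact hPi v
    · simp only [hv, if_false]
      exact integrable_const 0
  have i3 : Integrable (fun x => 2 * ∑ v : Fin R → Fin q, if v ∈ Lft pos B then Pr v x else 0)
      μ := (integrable_finsetSum _ fun v _ => i3' v).const_mul 2
  have hint := integral_mono_ae (i1.sub i2) i3 hpt
  have r1 : ∫ x, (∑ i ∈ I, G i x - ∑ i ∈ I, ∑ j ∈ univ.erase i, G i x * G j x) ∂μ =
      ∑ i ∈ I, ∫ x, G i x ∂μ - ∑ i ∈ I, ∑ j ∈ univ.erase i, ∫ x, G i x * G j x ∂μ := by
    rw [integral_sub i1 i2, integral_finsetSum _ fun i _ => hGi i,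
      integral_finsetSum _ fun i _ => integrable_finsetSum _ fun j _ => hGGi i j]
    congr 1
    refine Finset.sum_congr rfl fun i _ => ?_
    rw [integral_finsetSum _ fun j _ => hGGi i j]
  have r2 : ∫ x, 2 * (∑ v : Fin R → Fin q, if v ∈ Lft pos B then Pr v x else 0) ∂μ =
      2 * ∑ v : Fin R → Fin q, if v ∈ Lft pos B then ∫ x, Pr v x ∂μ else 0 := by
    rw [integral_const_mul, integral_finsetSum _ fun v _ => i3' v]
    congr 1
    refine Finset.sum_congr rfl fun v _ => ?_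
    by_cases hv : v ∈ Lft pos B
    · simp only [hv, if_true]
    · simp only [hv, if_false, integral_zero]
  have hinv : ∀ (f : X → ℝ), Measurable f → ∀ n : ℕ,
      ∫ x, f (T^[n] x) ∂μ = ∫ x, f x ∂μ := by
    intro f hf n
    have h := int_inv (A := Set.univ) mp MeasurableSet.univ f hf n
    simpa using h
  have r3 : ∀ i, ∫ x, G i x ∂μ = ∫ x, g x ∂μ := fun i => hinv g hgm _
  set k : ℕ → ℝ := fun d => ∫ x, g x * g (T^[p * d] x) ∂μ with hk
  have hlt : ∀ i j : ι, (pos i : ℕ) < pos j →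
      ∫ x, G i x * G j x ∂μ = k ((pos j : ℕ) - pos i) := by
    intro i j hij
    have h1 := hinv (fun x => g x * g (T^[p * ((pos j : ℕ) - pos i)] x))
      (hgm.mul (hgm.comp (T.measurable.iterate _))) (p * ((pos i : ℕ) + 1))
    have h2 : ∀ x, T^[p * ((pos j : ℕ) - pos i)] (T^[p * ((pos i : ℕ) + 1)] x) =
        T^[p * ((pos j : ℕ) + 1)] x := by
      intro x
      rw [← Function.iterate_add_apply]
      have : p * ((pos j : ℕ) - pos i) + p * ((pos i : ℕ) + 1) = p * ((pos j : ℕ) + 1) := by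
        rw [← mul_add]
        congr 1
        omega
      rw [this]
    simp only [h2] at h1
    exact h1
  have r4 : ∀ i j : ι, j ≠ i → ∫ x, G i x * G j x ∂μ = k (dif (pos i : ℕ) (pos j : ℕ)) := by
    intro i j hji
    have hne : (pos j : ℕ) ≠ pos i := fun h => hji (hpos (Fin.ext h))
    rcases lt_or_gt_of_ne hne with h | h
    · have e1 : dif (pos i : ℕ) (pos j : ℕ) = (pos i : ℕ) - pos j := by
        unfold dif
        omega
      rw [e1, ← hlt j i h]
      exact integral_congr_ae (Filter.Eventually.of_forall fun x => mul_comm _ _)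
    · have e1 : dif (pos i : ℕ) (pos j : ℕ) = (pos j : ℕ) - pos i := by
        unfold dif
        omega
      rw [e1]
      exact hlt i j h
  have r5 : ∑ i ∈ I, ∑ j ∈ univ.erase i, ∫ x, G i x * G j x ∂μ =
      ∑ i ∈ I, ∑ j ∈ univ.erase i, k (dif (pos i : ℕ) (pos j : ℕ)) := by
    refine Finset.sum_congr rfl fun i _ => Finset.sum_congr rfl fun j hj => ?_
    exact r4 i j (Finset.ne_of_mem_erase hj)
  have r6 : ∑ i ∈ I, ∫ x, G i x ∂μ = (I.card : ℝ) * ∫ x, g x ∂μ := by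
    rw [Finset.sum_congr rfl fun i _ => r3 i, Finset.sum_const, nsmul_eq_mul]
  have hint' : ∑ i ∈ I, ∫ x, G i x ∂μ -
      ∑ i ∈ I, ∑ j ∈ univ.erase i, ∫ x, G i x * G j x ∂μ ≤
      2 * ∑ v : Fin R → Fin q, if v ∈ Lft pos B then ∫ x, Pr v x ∂μ else 0 := by
    rw [← r1, ← r2]
    exact hint
  rw [r6, r5] at hint'
  have e1 : ∑ i ∈ I, ∑ j ∈ univ.erase i,
        ∫ x in Set.univ, (th * vvG μ a Z x) *
          (th * vvG μ a Z (T^[p * dif (pos i : ℕ) (pos j : ℕ)] x)) ∂μ =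
      ∑ i ∈ I, ∑ j ∈ univ.erase i, k (dif (pos i : ℕ) (pos j : ℕ)) := by
    refine Finset.sum_congr rfl fun i _ => Finset.sum_congr rfl fun j _ => ?_
    rw [Measure.restrict_univ, hk]
    simp only [hg]
  have e2 : ∫ x, th * vvG μ a Z x ∂μ = ∫ x, g x ∂μ := by rw [hg]
  rw [e1, e2]
  linarith

open Classical in
/-- the inequality for one pattern -/
theorem one_pattern (hP : T_P3G) (hC : T_CPG) (hM : T_MRG) (hU : Pool.Agent.H67.AG.T_UL)
    (erg : Ergodic T μ) (am : Measurable a) (J : ℕ) (U : Ultrafilter ℕ)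
    {ι : Type} [Fintype ι] [DecidableEq ι] (s : ℕ → ℝ) (pos : ι → Fin R)
    (I : Finset ι) (B : ℕ → Set (ι → Fin q)) (th : ℝ) (hUU : (U : Filter ℕ) ≤ atTop)
    (sv : ∀ p, s p = 0 ∨ s p = 1) (hpos : Function.Injective pos) (hB : ∀ p, CodeG I (B p))
    (hm : R ≤ J + 1) (h0 : 0 ≤ th) (h1 : th ≤ 1) :
    ds U s * (I.card : ℝ) * ∫ x, th * vvG μ a (tow μ T J) x ∂μ ≤
      2 * La U s μ T a (fun p => Lft pos (B p)) Set.univ +
      ∑ i ∈ I, ∑ j ∈ univ.erase i, Cd U μ T (fun x => th * vvG μ a (tow μ T J) x) Set.univ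
        (dif (pos i : ℕ) (pos j : ℕ)) := by
  set Z : SA X := tow μ T J with hZ
  have mp : MeasurePreserving T μ μ := erg.toMeasurePreserving
  obtain ⟨g, hg⟩ : ∃ g : X → ℝ, g = fun x => th * vvG μ a Z x := ⟨_, rfl⟩
  have hgm : Measurable g := by
    rw [hg]
    exact (vv_meas Z).const_mul th
  have hg0 : ∀ x, 0 ≤ g x := fun x => by
    rw [hg]
    exact mul_nonneg h0 (vv_nonneg Z x)
  have hg1 : ∀ x, g x ≤ 1 := fun x => by
    rw [hg]
    exact mul_le_one₀ h1 (vv_nonneg Z x) (vv_le Z x)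
  set Sm : ℕ → ℝ := fun p => ∑ v : Fin R → Fin q, if v ∈ Lft pos (B p) then
    ∫ x, ∏ i, wtG μ a Z (v i) (T^[p * ((i : ℕ) + 1)] x) ∂μ else 0 with hSm
  set F : ℕ → ℝ := fun p => s p * Sm p with hF
  set k : ι × ι → ℕ → ℝ := fun z p =>
    ∫ x in Set.univ, g x * g (T^[p * dif (pos z.1 : ℕ) (pos z.2 : ℕ)] x) ∂μ with hk
  have hs0 : ∀ p, 0 ≤ s p := fun p => by rcases sv p with h | h <;> rw [h]; norm_num
  have hs1 : ∀ p, s p ≤ 1 := fun p => by rcases sv p with h | h <;> rw [h]; norm_num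
  have hk0 : ∀ d p, 0 ≤ k d p := fun d p => integral_nonneg fun x => mul_nonneg (hg0 _) (hg0 _)
  have hk1 : ∀ d p, k d p ≤ 1 := by
    intro d p
    have h2 : k d p ≤ ∫ _x in Set.univ, (1 : ℝ) ∂μ := by
      refine integral_mono (int_bdd (hgm.mul (hgm.comp (T.measurable.iterate _))) 1 fun x =>
        abs_le.2 ⟨?_, ?_⟩) (integrable_const 1) fun x => ?_
      · have := mul_nonneg (hg0 x) (hg0 (T^[p * dif (pos d.1 : ℕ) (pos d.2 : ℕ)] x))
        change -1 ≤ g x * g (T^[p * dif (pos d.1 : ℕ) (pos d.2 : ℕ)] x)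
        linarith
      · exact mul_le_one₀ (hg1 _) (hg0 _) (hg1 _)
      · exact mul_le_one₀ (hg1 _) (hg0 _) (hg1 _)
    refine h2.trans ?_
    rw [setIntegral_const, smul_eq_mul, mul_one]
    exact measureReal_le_one
  -- bounds for the sums over words
  have hprod : ∀ (p : ℕ) (v : Fin R → Fin q),
      0 ≤ ∫ x, ∏ i, wtG μ a Z (v i) (T^[p * ((i : ℕ) + 1)] x) ∂μ ∧
      ∫ x, ∏ i, wtG μ a Z (v i) (T^[p * ((i : ℕ) + 1)] x) ∂μ ≤ 1 := by
    intro p v
    have hae : ∀ᵐ x ∂μ, ∀ i : Fin R, (∀ b, 0 ≤ wtG μ a Z b (T^[p * ((i : ℕ) + 1)] x)) ∧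
        ∑ b, wtG μ a Z b (T^[p * ((i : ℕ) + 1)] x) = 1 := by
      rw [ae_all_iff]
      intro i
      exact (mp.iterate (p * ((i : ℕ) + 1))).quasiMeasurePreserving.ae (wt_ae am Z)
    have hle : ∀ᵐ x ∂μ, 0 ≤ ∏ i, wtG μ a Z (v i) (T^[p * ((i : ℕ) + 1)] x) ∧
        ∏ i, wtG μ a Z (v i) (T^[p * ((i : ℕ) + 1)] x) ≤ 1 := by
      filter_upwards [hae] with x hx
      refine ⟨Finset.prod_nonneg fun i _ => (hx i).1 (v i), ?_⟩
      refine Finset.prod_le_one (fun i _ => (hx i).1 (v i)) fun i _ => ?_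
      rw [← (hx i).2]
      exact Finset.single_le_sum (f := fun b => wtG μ a Z b (T^[p * ((i : ℕ) + 1)] x))
        (fun b _ => (hx i).1 b) (Finset.mem_univ _)
    have hm' : Measurable fun x => ∏ i, wtG μ a Z (v i) (T^[p * ((i : ℕ) + 1)] x) :=
      Finset.measurable_prod _ fun i _ => (wt_meas Z (v i)).comp (T.measurable.iterate _)
    have hi : Integrable (fun x => ∏ i, wtG μ a Z (v i) (T^[p * ((i : ℕ) + 1)] x)) μ := by
      refine Integrable.of_bound hm'.aestronglyMeasurable 1 ?_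
      filter_upwards [hle] with x hx
      rw [Real.norm_eq_abs, abs_of_nonneg hx.1]
      exact hx.2
    refine ⟨integral_nonneg_of_ae (hle.mono fun x hx => hx.1), ?_⟩
    have h3 := integral_mono_ae hi (integrable_const (1 : ℝ)) (hle.mono fun x hx => hx.2)
    simpa using h3
  obtain ⟨Kc, hKc⟩ : ∃ Kc : ℝ, Kc = (Fintype.card (Fin R → Fin q) : ℝ) := ⟨_, rfl⟩
  have hKc0 : 0 ≤ Kc := by rw [hKc]; exact Nat.cast_nonneg _
  have hSm0 : ∀ p, 0 ≤ Sm p := by
    intro p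
    refine Finset.sum_nonneg fun v _ => ?_
    split_ifs
    · exact (hprod p v).1
    · exact le_rfl
  have hSm1 : ∀ p, Sm p ≤ Kc := by
    intro p
    calc Sm p ≤ ∑ _v : Fin R → Fin q, (1 : ℝ) := by
          refine Finset.sum_le_sum fun v _ => ?_
          split_ifs
          · exact (hprod p v).2
          · exact zero_le_one
      _ = Kc := by rw [hKc]; simp
  obtain ⟨mg, hmg⟩ : ∃ mg : ℝ, mg = (I.card : ℝ) * ∫ x, th * vvG μ a Z x ∂μ := ⟨_, rfl⟩
  set S : Finset (ι × ι) := I.biUnion fun i => (univ.erase i).image fun j => (i, j) with hS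
  have hSsum : ∀ f : ι × ι → ℝ, ∑ z ∈ S, f z = ∑ i ∈ I, ∑ j ∈ univ.erase i, f (i, j) := by
    intro f
    rw [hS, Finset.sum_biUnion]
    · refine Finset.sum_congr rfl fun i _ => ?_
      rw [Finset.sum_image]
      intro j _ j' _ h
      exact (Prod.ext_iff.1 h).2
    · intro i _ i' _ hii
      rw [Function.onFun, Finset.disjoint_left]
      intro z hz hz'
      rw [Finset.mem_image] at hz hz'
      obtain ⟨j, _, rfl⟩ := hz
      obtain ⟨j', _, h⟩ := hz'
      exact hii (Prod.ext_iff.1 h).1.symm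
  -- one prime with the flag
  have hone : ∀ p, mg * s p ≤ 2 * F p + ∑ z ∈ S, k z p := by
    intro p
    have hsum : 0 ≤ ∑ z ∈ S, k z p := Finset.sum_nonneg fun d _ => hk0 d p
    have h3 := one_prime hC hM mp am pos hpos I (B p) (hB p) Z th h0 h1 p
    have h4 : mg ≤ 2 * Sm p + ∑ z ∈ S, k z p := by
      rw [hmg]
      refine h3.trans (le_of_eq ?_)
      rw [hSsum]
      simp only [hSm, hk, hg]
    rcases sv p with h | h
    · simp only [hF, h, mul_zero, zero_mul, zero_add]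
      exact hsum
    · simp only [hF, h, mul_one, one_mul]
      exact h4
  have bs : ∀ m, |avgP 2 m s| ≤ 1 := fun m => avg_abs 2 m s 1 zero_le_one fun p =>
    abs_le.2 ⟨by linarith [hs0 p], hs1 p⟩
  have bF : ∀ m, |avgP 2 m F| ≤ Kc := fun m => avg_abs 2 m F Kc hKc0 fun p => by
    have h2 : 0 ≤ F p := mul_nonneg (hs0 p) (hSm0 p)
    rw [abs_of_nonneg h2]
    calc F p ≤ 1 * Sm p := mul_le_mul_of_nonneg_right (hs1 p) (hSm0 p)
      _ = Sm p := one_mul _
      _ ≤ Kc := hSm1 p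
  have bk : ∀ d m, |avgP 2 m (k d)| ≤ 1 := fun d m => avg_abs 2 m (k d) 1 zero_le_one fun p =>
    abs_le.2 ⟨by linarith [hk0 d p], hk1 d p⟩
  have h2 : ∀ m, mg * avgP 2 m s ≤ 2 * avgP 2 m F + ∑ z ∈ S, avgP 2 m (k z) := by
    intro m
    have h3 := avg_mono 2 m _ _ hone
    rw [avg_mul, avg_add, avg_mul, avg_sum] at h3
    exact h3
  obtain ⟨hu1, hu2, hu3, hu4, hu5⟩ := hU U
  obtain ⟨⟨C', hC'⟩, hsumul⟩ := ul_sum hU U S (fun d m => avgP 2 m (k d)) 1 bk
  have b1 : ∃ C, ∀ m, |mg * avgP 2 m s| ≤ C :=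
    ⟨|mg| * 1, fun m => by
      rw [abs_mul]
      exact mul_le_mul_of_nonneg_left (bs m) (abs_nonneg _)⟩
  have b2 : ∃ C, ∀ m, |2 * avgP 2 m F| ≤ C :=
    ⟨|2| * Kc, fun m => by
      rw [abs_mul]
      exact mul_le_mul_of_nonneg_left (bF m) (abs_nonneg _)⟩
  have b4 : ∃ C, ∀ m, |2 * avgP 2 m F + ∑ z ∈ S, avgP 2 m (k z)| ≤ C := by
    obtain ⟨C2, h2'⟩ := b2
    exact ⟨C2 + C', fun m => (abs_add_le _ _).trans (add_le_add (h2' m) (hC' m))⟩
  have h4 := hu2 (fun m => mg * avgP 2 m s)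
    (fun m => 2 * avgP 2 m F + ∑ z ∈ S, avgP 2 m (k z)) b1 b4
    (Filter.Eventually.of_forall h2)
  rw [hu4 (fun m => avgP 2 m s) _ ⟨1, bs⟩,
    hu3 (fun m => 2 * avgP 2 m F) _ b2 ⟨C', hC'⟩,
    hu4 (fun m => avgP 2 m F) _ ⟨Kc, bF⟩, hsumul] at h4
  have hLa : La U s μ T a (fun p => Lft pos (B p)) Set.univ = ul U (fun m => avgP 2 m F) :=
    hP X μ T q R J a U s (fun p => Lft pos (B p)) erg am hUU sv hm
  rw [hLa]
  have h5 : ds U s * (I.card : ℝ) * ∫ x, th * vvG μ a Z x ∂μ = mg * ds U s := by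
    rw [hmg]
    ring
  rw [h5]
  have h6 : ∀ i j, Cd U μ T (fun x => th * vvG μ a Z x) Set.univ
      (dif (pos i : ℕ) (pos j : ℕ)) = ul U (fun m => avgP 2 m (k (i, j))) := by
    intro i j
    unfold Cd
    simp only [hk, hg]
  rw [hSsum] at h4
  simp only [h6]
  exact h4

end

theorem pf_RSP (h3 : T_P3G) (hC : T_CPG) (hM : T_MRG) (hU : Pool.Agent.H67.AG.T_UL) : T_RSP := by
  intro X _ _ μ _ T q R J a U Pt ι _ _ _ _ s pos I B th erg am hUU sv hpos hB hm h0 h1
  have h := fun t => one_pattern h3 hC hM hU erg am J U (s t) (pos t) I (B t) th hUU (sv t)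
    (hpos t) (hB t) hm h0 h1
  have hs := Finset.sum_le_sum fun t (_ : t ∈ (univ : Finset Pt)) => h t
  have hc : (0 : ℝ) ≤ (Fintype.card Pt : ℝ) := Nat.cast_nonneg _
  have hd := div_le_div_of_nonneg_right hs hc
  rw [Finset.sum_add_distrib, ← Finset.mul_sum] at hd
  have e1 : (∑ t, ds U (s t) * (I.card : ℝ) * ∫ x, th * vvG μ a (tow μ T J) x ∂μ) =
      (∑ t, ds U (s t)) * ((I.card : ℝ) * ∫ x, th * vvG μ a (tow μ T J) x ∂μ) := by
    rw [Finset.sum_mul]
    exact Finset.sum_congr rfl fun t _ => by ring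
  rw [e1] at hd
  unfold dsG LaG Sp
  refine (le_of_eq ?_).trans (hd.trans (le_of_eq ?_))
  · ring
  · rw [add_div, mul_div_assoc]

end Pool.Agent.H2.GN
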